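import Pool.Agent.Lib.MP_c3d375_an.Neg.H19.SetC2

/-!
# The set C1 of section 0.1 (a disc with a small bump)
-/

set_option autoImplicit false

open Complex Metric Set Filter Topology

namespace Pool.Agent.Lib.MP_c3d375_an.Neg.H19

/-- the parameters: `0 < a < 1`, `0 < e`, `2 e ≤ (1-a)³` -/
structure Par (a e : ℝ) : Prop where
  a0 : 0 < a
  a1 : a < 1
  e0 : 0 < e
  e1 : 2 * e ≤ (1 - a) ^ 3

/-- `χ(z) = z + (e/a)/(1-az)` -/
noncomputable def chi (a e : ℝ) (z : ℂ) : ℂ := z + ((e / a : ℝ) : ℂ) / (1 - a * z)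

/-- the derivative of `χ` -/
noncomputable def chid (a e : ℝ) (z : ℂ) : ℂ := 1 + e / (1 - a * z) ^ 2

/-- the inverse of `χ` -/
noncomputable def gi (a e : ℝ) (w : ℂ) : ℂ :=
  ((1 + a * w) - sr ((1 - a * w) ^ 2 + 4 * e)) / (2 * a)

/-- the set `C₁` -/
def C1 (a e : ℝ) : Set ℂ := chi a e '' closedBall 0 1

theorem sr_re_pos' {h : ℂ} (hh : h ∈ slitPlane) : 0 < (sr h).re := by
  rw [sr, exp_re]
  apply mul_pos (Real.exp_pos _)
  apply Real.cos_pos_of_mem_Ioo
  have h1 : (log h / 2).im = arg h / 2 := by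
    rw [show (log h / 2) = log h / ((2 : ℝ) : ℂ) by push_cast; rfl, Complex.div_ofReal_im, log_im]
  rw [h1]
  have h2 := Complex.neg_pi_lt_arg h
  have h3 : arg h < Real.pi := lt_of_le_of_ne (Complex.arg_le_pi h)
    (Complex.mem_slitPlane_iff_arg.1 hh).1
  constructor <;> linarith

theorem sq_mem_slitPlane {b : ℂ} (hb : 0 < b.re) {t : ℝ} (ht : 0 ≤ t) :
    b ^ 2 + t ∈ slitPlane := by
  rw [Complex.mem_slitPlane_iff]
  by_cases h : b.im = 0
  · left
    have : (b ^ 2 + t).re = b.re ^ 2 - b.im ^ 2 + t := by simp [pow_two]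
    rw [this, h]
    have := pow_pos hb 2
    linarith
  · right
    have : (b ^ 2 + t).im = 2 * b.re * b.im := by simp [pow_two]; ring
    rw [this]
    exact mul_ne_zero (mul_ne_zero two_ne_zero hb.ne') h

theorem sr_of_sq {b : ℂ} (hb : 0 < b.re) : sr (b ^ 2) = b := by
  have h0 : b ≠ 0 := by rintro rfl; simp at hb
  have h1 := sr_sq (pow_ne_zero 2 h0)
  have h2 : 0 < (sr (b ^ 2)).re := by
    have := sq_mem_slitPlane hb (le_refl 0)
    rw [Complex.ofReal_zero, add_zero] at this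
    exact sr_re_pos' this
  rcases sq_eq_sq_iff_eq_or_eq_neg.1 h1 with h | h
  · exact h
  · rw [h] at h2
    simp only [Complex.neg_re] at h2
    linarith

variable {a e : ℝ}

theorem Par.ac (h : Par a e) : (a : ℂ) ≠ 0 := by exact_mod_cast h.a0.ne'

theorem Par.ehalf (h : Par a e) : 2 * e ≤ (1 - a) ^ 2 := by
  have h1 := h.e1
  have h2 := h.a1
  have h3 := h.a0
  nlinarith [sq_nonneg (1 - a)]

theorem re_one_sub {a : ℝ} (ha : 0 ≤ a) {z : ℂ} {r : ℝ} (hz : ‖z‖ ≤ r) :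
    1 - a * r ≤ (1 - (a : ℂ) * z).re := by
  have h1 : ((a : ℂ) * z).re ≤ a * r := by
    refine (Complex.re_le_norm _).trans ?_
    rw [norm_mul, Complex.norm_real, Real.norm_of_nonneg ha]
    exact mul_le_mul_of_nonneg_left hz ha
  simp only [Complex.sub_re, Complex.one_re]
  linarith

theorem Par.bre (h : Par a e) {z : ℂ} (hz : ‖z‖ ≤ 1) : 1 - a ≤ (1 - (a : ℂ) * z).re := by
  have := re_one_sub h.a0.le hz
  linarith

theorem Par.bne (h : Par a e) {z : ℂ} (hz : ‖z‖ ≤ 1) : 1 - (a : ℂ) * z ≠ 0 := by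
  intro h0
  have h1 := h.bre hz
  rw [h0, Complex.zero_re] at h1
  linarith [h.a1]

theorem Par.bnorm (h : Par a e) {z : ℂ} (hz : ‖z‖ ≤ 1) : 1 - a ≤ ‖1 - (a : ℂ) * z‖ :=
  (h.bre hz).trans (Complex.re_le_norm _)

theorem chi_sub (ha : (a : ℂ) ≠ 0) {ζ z : ℂ} (h1 : 1 - (a : ℂ) * ζ ≠ 0)
    (h2 : 1 - (a : ℂ) * z ≠ 0) :
    chi a e ζ - chi a e z = (ζ - z) * (1 + e / ((1 - a * ζ) * (1 - a * z))) := by
  unfold chi
  push_cast
  have key : ∀ P Q : ℂ, P ≠ 0 → Q ≠ 0 → Q - P = a * (ζ - z) →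
      ζ + (e : ℂ) / a / P - (z + (e : ℂ) / a / Q) = (ζ - z) * (1 + e / (P * Q)) := by
    intro P Q hP hQ hPQ
    have r1 : (e : ℂ) / a / P - (e : ℂ) / a / Q = (e / a) * (Q - P) / (P * Q) := by
      field_simp
    have r2 : (e : ℂ) / a * (a * (ζ - z)) / (P * Q) = (ζ - z) * (e / (P * Q)) := by
      field_simp
    rw [hPQ, r2] at r1
    linear_combination r1
  exact key _ _ h1 h2 (by ring)

theorem hasDerivAt_chi (ha : (a : ℂ) ≠ 0) {z : ℂ} (h : 1 - (a : ℂ) * z ≠ 0) :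
    HasDerivAt (chi a e) (chid a e z) z := by
  have h1 : HasDerivAt (fun z : ℂ => 1 - (a : ℂ) * z) (-(a : ℂ)) z := by
    have := ((hasDerivAt_id z).const_mul (a : ℂ)).const_sub 1
    simpa using this
  have h2 := (hasDerivAt_const z ((e / a : ℝ) : ℂ)).div h1 h
  have h3 := (hasDerivAt_id z).add h2
  have h4 : chid a e z = 1 + (0 * (1 - (a : ℂ) * z) - ((e / a : ℝ) : ℂ) * (-(a : ℂ))) /
      (1 - (a : ℂ) * z) ^ 2 := by
    unfold chid
    congr 2
    push_cast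
    rw [zero_mul, zero_sub, mul_neg, neg_neg, div_mul_cancel₀ _ ha]
  rw [h4]
  exact h3

theorem gi_chi (ha : (a : ℂ) ≠ 0) (he : 0 ≤ e) {z : ℂ} (h : 0 < (1 - (a : ℂ) * z).re) :
    gi a e (chi a e z) = z := by
  set b : ℂ := 1 - a * z with hb
  have hb0 : b ≠ 0 := by intro h0; rw [h0] at h; simp at h
  have h1 : 0 < (b + e / b).re := by
    rw [Complex.add_re]
    have : 0 ≤ ((e : ℂ) / b).re := by
      rw [Complex.div_re, Complex.ofReal_re, Complex.ofReal_im]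
      have : 0 ≤ e * b.re / normSq b := div_nonneg (mul_nonneg he h.le) (normSq_nonneg _)
      simpa using this
    linarith
  have h2 : (1 - a * chi a e z) ^ 2 + 4 * e = (b + e / b) ^ 2 := by
    unfold chi
    rw [← hb]
    push_cast
    have : z = (1 - b) / a := by rw [hb]; field_simp; ring
    rw [this]
    field_simp
    ring
  unfold gi
  rw [h2, sr_of_sq h1]
  unfold chi
  rw [← hb]
  have : z = (1 - b) / a := by rw [hb]; field_simp; ring
  push_cast
  rw [this]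
  field_simp
  ring

theorem one_sub_gi (ha : (a : ℂ) ≠ 0) (w : ℂ) :
    1 - a * gi a e w = ((1 - a * w) + sr ((1 - a * w) ^ 2 + 4 * e)) / 2 := by
  unfold gi
  field_simp
  ring

theorem re_one_sub_gi (ha : (a : ℂ) ≠ 0) (he : 0 ≤ e) {w : ℂ} (h : 0 < (1 - (a : ℂ) * w).re) :
    0 < (1 - (a : ℂ) * gi a e w).re := by
  rw [one_sub_gi ha]
  have h1 := sq_mem_slitPlane h (t := 4 * e) (by positivity)
  have h2 := sr_re_pos' h1
  push_cast at h2
  rw [show ((1 - (a : ℂ) * w) + sr ((1 - a * w) ^ 2 + 4 * e)) / 2 =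
    ((1 - (a : ℂ) * w) + sr ((1 - a * w) ^ 2 + 4 * e)) / ((2 : ℝ) : ℂ) by push_cast; rfl,
    Complex.div_ofReal_re, Complex.add_re]
  have : 0 < (1 - (a : ℂ) * w).re + (sr ((1 - a * w) ^ 2 + 4 * e)).re := by linarith
  linarith

theorem chi_gi (ha : (a : ℂ) ≠ 0) (he : 0 ≤ e) {w : ℂ} (h : 0 < (1 - (a : ℂ) * w).re) :
    chi a e (gi a e w) = w := by
  have h1 := re_one_sub_gi (e := e) ha he h
  have h2 := one_sub_gi (e := e) ha w
  have h3 : ((1 - (a : ℂ) * w) ^ 2 + 4 * e) ≠ 0 := by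
    have := sq_mem_slitPlane h (t := 4 * e) (by positivity)
    push_cast at this
    exact Complex.slitPlane_ne_zero this
  have h4 := sr_sq h3
  set s := sr ((1 - (a : ℂ) * w) ^ 2 + 4 * e) with hs
  have h5 : 1 - (a : ℂ) * gi a e w ≠ 0 := by
    intro h0; rw [h0] at h1; simp at h1
  have h6 : (1 - a * w) + s ≠ 0 := by
    intro h0; rw [h2, h0] at h5; simp at h5
  unfold chi
  rw [h2]
  have h7 : gi a e w = ((1 + a * w) - s) / (2 * a) := by rw [gi, ← hs]
  rw [h7]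
  push_cast
  have h8 : (4 * (e : ℂ)) = s ^ 2 - (1 - a * w) ^ 2 := by rw [h4]; ring
  have h9 : (e : ℂ) / a / (((1 - a * w) + s) / 2) = (s - (1 - a * w)) / (2 * a) := by
    have hs1 : ∀ t : ℂ, t ≠ 0 → 4 * (e : ℂ) = (s - (1 - a * w)) * t →
        (e : ℂ) / a / (t / 2) = (s - (1 - a * w)) / (2 * a) := by
      intro t ht hte
      have r1 : (e : ℂ) / a * 2 * (2 * a) = 4 * e := by field_simp; ring
      rw [div_div_eq_mul_div, div_eq_div_iff ht (by simp [ha]), r1, hte]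
    exact hs1 _ h6 (by rw [h8]; ring)
  rw [h9]
  field_simp
  ring

theorem differentiableOn_gi (he : 0 ≤ e) :
    DifferentiableOn ℂ (gi a e) {w | 0 < (1 - (a : ℂ) * w).re} := by
  intro w hw
  have h1 := sq_mem_slitPlane hw (t := 4 * e) (by positivity)
  push_cast at h1
  have h2 : DifferentiableAt ℂ sr ((1 - (a : ℂ) * w) ^ 2 + 4 * e) := by
    have : DifferentiableAt ℂ (fun h => exp (log h / 2)) ((1 - (a : ℂ) * w) ^ 2 + 4 * e) :=
      ((differentiableAt_log h1).div_const 2).cexp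
    exact this
  have h3 : DifferentiableAt ℂ (fun w : ℂ => sr ((1 - (a : ℂ) * w) ^ 2 + 4 * e)) w :=
    DifferentiableAt.comp (g := sr) (f := fun w : ℂ => (1 - (a : ℂ) * w) ^ 2 + 4 * e) w
      h2 (by fun_prop)
  have h4 : DifferentiableAt ℂ (gi a e) w := by
    unfold gi
    exact (DifferentiableAt.sub (by fun_prop) h3).div_const _
  exact h4.differentiableWithinAt

/-! ### The kernel -/

/-- the correction term `m(ζ, z)` -/
noncomputable def mker (a e : ℝ) (ζ z : ℂ) : ℂ :=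
  ζ * a * e * (1 - a * z)⁻¹ * (1 - a * ζ)⁻¹ * (1 - a * ζ + e * (1 - a * z)⁻¹)⁻¹

theorem Par.re_inv (h : Par a e) {z : ℂ} (hz : ‖z‖ ≤ 1) : 0 ≤ ((1 - (a : ℂ) * z)⁻¹).re := by
  rw [Complex.inv_re]
  have := h.bre hz
  have h1 := h.a1
  exact div_nonneg (by linarith) (Complex.normSq_nonneg _)

theorem Par.den_re (h : Par a e) {ζ z : ℂ} (hζ : ‖ζ‖ ≤ 1) (hz : ‖z‖ ≤ 1) :
    1 - a ≤ (1 - (a : ℂ) * ζ + e * (1 - a * z)⁻¹).re := by
  rw [Complex.add_re, Complex.re_ofReal_mul]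
  have h1 := h.bre hζ
  have h2 := mul_nonneg h.e0.le (h.re_inv hz)
  linarith

theorem Par.den_ne (h : Par a e) {ζ z : ℂ} (hζ : ‖ζ‖ ≤ 1) (hz : ‖z‖ ≤ 1) :
    (1 - (a : ℂ) * ζ + e * (1 - a * z)⁻¹) ≠ 0 := by
  intro h0
  have h1 := h.den_re hζ hz
  rw [h0, Complex.zero_re] at h1
  linarith [h.a1]

theorem Par.norm_mk (h : Par a e) {ζ z : ℂ} (hζ : ‖ζ‖ ≤ 1) (hz : ‖z‖ ≤ 1) :
    ‖mker a e ζ z‖ ≤ e / (1 - a) ^ 3 := by
  have h1 := h.a1
  have h0 := h.a0
  have he := h.e0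
  have hp : 0 < 1 - a := by linarith
  have hinv : ∀ w : ℂ, 1 - a ≤ ‖w‖ → ‖w⁻¹‖ ≤ (1 - a)⁻¹ := fun w hw => by
    rw [norm_inv]
    exact inv_anti₀ hp hw
  unfold mker
  rw [norm_mul, norm_mul, norm_mul, norm_mul, norm_mul, Complex.norm_real, Complex.norm_real,
    Real.norm_of_nonneg h0.le, Real.norm_of_nonneg he.le]
  have b1 := hinv _ (h.bnorm hz)
  have b2 := hinv _ (h.bnorm hζ)
  have b3 := hinv _ ((h.den_re hζ hz).trans (Complex.re_le_norm _))
  calc ‖ζ‖ * a * e * ‖(1 - (a : ℂ) * z)⁻¹‖ * ‖(1 - (a : ℂ) * ζ)⁻¹‖ *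
        ‖(1 - (a : ℂ) * ζ + e * (1 - a * z)⁻¹)⁻¹‖
      ≤ 1 * 1 * e * (1 - a)⁻¹ * (1 - a)⁻¹ * (1 - a)⁻¹ := by gcongr
    _ = e / (1 - a) ^ 3 := by field_simp

theorem Par.norm_mk_half (h : Par a e) {ζ z : ℂ} (hζ : ‖ζ‖ ≤ 1) (hz : ‖z‖ ≤ 1) :
    ‖mker a e ζ z‖ ≤ 1 / 2 := by
  refine (h.norm_mk hζ hz).trans ?_
  have hp : 0 < (1 - a) ^ 3 := by have := h.a1; have : 0 < 1 - a := by linarith
                                  positivity
  rw [div_le_div_iff₀ hp (by norm_num)]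
  linarith [h.e1]

theorem Par.kfac_ne (h : Par a e) {ζ z : ℂ} (hζ : ‖ζ‖ ≤ 1) (hz : ‖z‖ ≤ 1) :
    (1 + (e : ℂ) / ((1 - a * ζ) * (1 - a * z))) ≠ 0 := by
  have h1 := h.den_ne hζ hz
  have h2 := h.bne hζ
  have h3 := h.bne hz
  intro h0
  apply h1
  have h4 : (1 - (a : ℂ) * ζ + e * (1 - a * z)⁻¹) =
      (1 - (a : ℂ) * ζ) * (1 + (e : ℂ) / ((1 - a * ζ) * (1 - a * z))) := by
    field_simp
  rw [h4, h0, mul_zero]

theorem Par.chid_ne (h : Par a e) {ζ : ℂ} (hζ : ‖ζ‖ ≤ 1) : chid a e ζ ≠ 0 := by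
  have h1 := h.kfac_ne hζ hζ
  unfold chid
  rwa [pow_two]

/-- the kernel identity -/
theorem Par.kernel (h : Par a e) {ζ z : ℂ} (hζ : ‖ζ‖ = 1) (hz : ‖z‖ ≤ 1) (hne : z ≠ ζ) :
    ζ * chid a e ζ / (chi a e ζ - chi a e z) =
      1 / (1 - (starRingEnd ℂ) ζ * z) + mker a e ζ z := by
  have hac := h.ac
  have h1 := h.bne hζ.le
  have h2 := h.bne hz
  have h3 := h.kfac_ne hζ.le hz
  have h4 := h.den_ne hζ.le hz
  have hz0 : ζ ≠ 0 := by rintro rfl; simp at hζ
  have hcs : (starRingEnd ℂ) ζ = ζ⁻¹ := by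
    rw [Complex.inv_def, Complex.normSq_eq_norm_sq, hζ]; simp
  have hd : ζ - z ≠ 0 := sub_ne_zero.2 (Ne.symm hne)
  have h5 : 1 / (1 - (starRingEnd ℂ) ζ * z) = ζ / (ζ - z) := by
    rw [hcs]
    have : 1 - ζ⁻¹ * z = (ζ - z) / ζ := by field_simp
    rw [this, one_div_div]
  rw [h5, chi_sub hac h1 h2]
  have h6 : (1 - (a : ℂ) * ζ) * (1 - a * z) + e ≠ 0 := by
    intro h0
    apply h4
    have : (1 - (a : ℂ) * ζ + e * (1 - a * z)⁻¹) =
        ((1 - (a : ℂ) * ζ) * (1 - a * z) + e) / (1 - a * z) := by field_simp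
    rw [this, h0, zero_div]
  have e1 : (1 + (e : ℂ) / ((1 - a * ζ) * (1 - a * z))) =
      ((1 - (a : ℂ) * ζ) * (1 - a * z) + e) / ((1 - a * ζ) * (1 - a * z)) := by field_simp
  have e2 : (1 - (a : ℂ) * ζ + e * (1 - a * z)⁻¹) =
        ((1 - (a : ℂ) * ζ) * (1 - a * z) + e) / (1 - a * z) := by field_simp
  have e3 : chid a e ζ = ((1 - a * ζ) ^ 2 + e) / (1 - a * ζ) ^ 2 := by
    unfold chid; field_simp
  unfold mker
  rw [e1, e2, e3]
  have key : ∀ P Q D : ℂ, P ≠ 0 → Q ≠ 0 → D ≠ 0 → D = P * Q + e → a * (ζ - z) = Q - P →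
      ζ * ((P ^ 2 + e) / P ^ 2) / ((ζ - z) * (D / (P * Q))) =
        ζ / (ζ - z) + ζ * a * e * Q⁻¹ * P⁻¹ * (D / Q)⁻¹ := by
    intro P Q D hP hQ hD hDe hPQ
    have r1 : ζ * a * e * Q⁻¹ * P⁻¹ * (D / Q)⁻¹ = ζ * (a * e) / (P * D) := by
      field_simp
    have r2 : ζ * ((P ^ 2 + e) / P ^ 2) / ((ζ - z) * (D / (P * Q))) =
        ζ * ((P ^ 2 + e) * Q) / ((ζ - z) * (P * D)) := by
      field_simp
    rw [r1, r2, div_add_div _ _ hd (mul_ne_zero hP hD), div_left_inj' (mul_ne_zero hd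
      (mul_ne_zero hP hD))]
    rw [hDe]
    linear_combination (-(e : ℂ) * ζ) * hPQ
  exact key _ _ _ h1 h2 h6 rfl (by ring)

theorem re_inv_one_sub {w : ℂ} (hw : ‖w‖ ≤ 1) (h : 1 - w ≠ 0) : 1 / 2 ≤ (1 / (1 - w)).re := by
  rw [one_div (1 - w), Complex.inv_re, div_le_div_iff₀ (by norm_num) (Complex.normSq_pos.2 h)]
  rw [Complex.normSq_apply]
  have h1 : w.re ^ 2 + w.im ^ 2 ≤ 1 := by
    have h2 : ‖w‖ ^ 2 ≤ 1 := pow_le_one₀ (norm_nonneg _) hw
    rw [← Complex.normSq_eq_norm_sq, Complex.normSq_apply] at h2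
    nlinarith
  simp only [Complex.sub_re, Complex.one_re, Complex.sub_im, Complex.one_im]
  nlinarith

theorem Par.kernel_re (h : Par a e) {ζ z : ℂ} (hζ : ‖ζ‖ = 1) (hz : ‖z‖ ≤ 1) (hne : z ≠ ζ) :
    0 ≤ (ζ * chid a e ζ / (chi a e ζ - chi a e z)).re := by
  rw [h.kernel hζ hz hne, Complex.add_re]
  have h1 : 1 - (starRingEnd ℂ) ζ * z ≠ 0 := by
    intro h0
    apply hne
    have h2 : (starRingEnd ℂ) ζ * z = 1 := by linear_combination -h0
    have h3 : ζ * (starRingEnd ℂ) ζ = 1 := by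
      rw [Complex.mul_conj, Complex.normSq_eq_norm_sq, hζ]; simp
    calc z = (ζ * (starRingEnd ℂ) ζ) * z := by rw [h3, one_mul]
      _ = ζ * ((starRingEnd ℂ) ζ * z) := by ring
      _ = ζ := by rw [h2, mul_one]
  have h4 := re_inv_one_sub (w := (starRingEnd ℂ) ζ * z) (by
    rw [norm_mul, Complex.norm_conj, hζ, one_mul]; exact hz) h1
  have h5 := h.norm_mk_half hζ.le hz
  have h6 := (Complex.abs_re_le_norm (mker a e ζ z)).trans h5
  linarith [(abs_le.1 h6).1]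

/-- the half plane with outer normal `ζ χ'(ζ)` at `χ(ζ)` -/
def HP (a e : ℝ) (ζ : ℂ) : Set ℂ :=
  {w | 0 ≤ ((starRingEnd ℂ) (ζ * chid a e ζ) * (chi a e ζ - w)).re}

theorem re_conj_mul_eq {n d : ℂ} (hd : d ≠ 0) :
    ((starRingEnd ℂ) n * d).re = (n / d).re * normSq d := by
  have h0 : normSq d ≠ 0 := (Complex.normSq_pos.2 hd).ne'
  rw [Complex.div_re, ← add_div, div_mul_cancel₀ _ h0]
  simp only [Complex.mul_re, Complex.conj_re, Complex.conj_im]
  ring

theorem Par.subset_HP (h : Par a e) {ζ : ℂ} (hζ : ‖ζ‖ = 1) : C1 a e ⊆ HP a e ζ := by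
  rintro w ⟨z, hz, rfl⟩
  rw [mem_closedBall_zero_iff] at hz
  show 0 ≤ ((starRingEnd ℂ) (ζ * chid a e ζ) * (chi a e ζ - chi a e z)).re
  by_cases hne : z = ζ
  · rw [hne, sub_self, mul_zero, Complex.zero_re]
  · have hd : chi a e ζ - chi a e z ≠ 0 := by
      rw [chi_sub h.ac (h.bne hζ.le) (h.bne hz)]
      exact mul_ne_zero (sub_ne_zero.2 (Ne.symm hne)) (h.kfac_ne hζ.le hz)
    rw [re_conj_mul_eq hd]
    exact mul_nonneg (h.kernel_re hζ hz hne) (Complex.normSq_nonneg _)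

theorem Par.continuousOn_chi (h : Par a e) : ContinuousOn (chi a e) (closedBall 0 1) := by
  intro z hz
  rw [mem_closedBall_zero_iff] at hz
  exact (hasDerivAt_chi h.ac (h.bne hz)).continuousAt.continuousWithinAt

theorem Par.isCompact_C1 (h : Par a e) : IsCompact (C1 a e) :=
  (isCompact_closedBall 0 1).image_of_continuousOn h.continuousOn_chi

/-- first variation of the distance -/
theorem Par.variation (h : Par a e) {w z₀ k : ℂ} (hz₀ : ‖z₀‖ ≤ 1)
    (hmin : ∀ z ∈ closedBall (0 : ℂ) 1, ‖chi a e z₀ - w‖ ≤ ‖chi a e z - w‖)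
    (hk : ∀ᶠ s : ℝ in 𝓝[>] 0, ‖z₀ + s * k‖ ≤ 1) :
    0 ≤ ((starRingEnd ℂ) (chi a e z₀ - w) * (k * chid a e z₀)).re := by
  set d := chi a e z₀ - w with hd
  have hcont : Tendsto (fun s : ℝ => k * (1 + (e : ℂ) / ((1 - a * z₀) * (1 - a * (z₀ + s * k)))))
      (𝓝[>] 0) (𝓝 (k * chid a e z₀)) := by
    have h1 : chid a e z₀ = 1 + (e : ℂ) / ((1 - a * z₀) * (1 - a * (z₀ + ((0 : ℝ) : ℂ) * k))) := by
      unfold chid
      rw [Complex.ofReal_zero, zero_mul, add_zero, pow_two]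
    rw [h1]
    refine Tendsto.mono_left ?_ nhdsWithin_le_nhds
    have h2 : ContinuousAt (fun s : ℝ => k * (1 + (e : ℂ) /
        ((1 - a * z₀) * (1 - a * (z₀ + s * k))))) 0 := by
      refine ContinuousAt.mul continuousAt_const (ContinuousAt.add continuousAt_const ?_)
      refine ContinuousAt.div continuousAt_const (by fun_prop) ?_
      rw [Complex.ofReal_zero, zero_mul, add_zero]
      exact mul_ne_zero (h.bne hz₀) (h.bne hz₀)
    exact h2
  set κ : ℝ → ℂ := fun s => k * (1 + (e : ℂ) / ((1 - a * z₀) * (1 - a * (z₀ + s * k)))) with hκ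
  have hev : ∀ᶠ s : ℝ in 𝓝[>] 0, 0 ≤ 2 * ((starRingEnd ℂ) d * κ s).re + s * ‖κ s‖ ^ 2 := by
    filter_upwards [hk, self_mem_nhdsWithin] with s hs hs0
    have hs0 : 0 < s := hs0
    have h1 := hmin (z₀ + s * k) (by rw [mem_closedBall_zero_iff]; exact hs)
    have h2 : chi a e (z₀ + s * k) - w = d + s * κ s := by
      have h3 := chi_sub (e := e) h.ac (h.bne hs) (h.bne hz₀)
      have h4 : chi a e (z₀ + s * k) - w = (chi a e (z₀ + s * k) - chi a e z₀) + d := by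
        rw [hd]; ring
      rw [h4, h3]
      simp only [hκ]
      ring
    rw [h2] at h1
    have h5 : ‖d + s * κ s‖ ^ 2 = ‖d‖ ^ 2 + s * (2 * ((starRingEnd ℂ) d * κ s).re + s * ‖κ s‖ ^ 2) := by
      rw [← Complex.normSq_eq_norm_sq, ← Complex.normSq_eq_norm_sq, ← Complex.normSq_eq_norm_sq,
        Complex.normSq_add, Complex.normSq_mul, Complex.normSq_ofReal]
      simp only [Complex.mul_re, Complex.conj_re, Complex.conj_im, map_mul, Complex.conj_ofReal,
        Complex.ofReal_re, Complex.ofReal_im, Complex.mul_im]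
      ring
    have h6 : ‖d‖ ^ 2 ≤ ‖d + s * κ s‖ ^ 2 := pow_le_pow_left₀ (norm_nonneg _) h1 2
    rw [h5] at h6
    have h7 : 0 ≤ s * (2 * ((starRingEnd ℂ) d * κ s).re + s * ‖κ s‖ ^ 2) := by linarith
    exact nonneg_of_mul_nonneg_right h7 hs0
  have hlim : Tendsto (fun s : ℝ => 2 * ((starRingEnd ℂ) d * κ s).re + s * ‖κ s‖ ^ 2) (𝓝[>] 0)
      (𝓝 (2 * ((starRingEnd ℂ) d * (k * chid a e z₀)).re + 0 * ‖k * chid a e z₀‖ ^ 2)) := by
    refine Tendsto.add ?_ (Tendsto.mul (tendsto_id.mono_left nhdsWithin_le_nhds)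
      ((hcont.norm).pow 2))
    exact ((Complex.continuous_re.tendsto _).comp (hcont.const_mul _)).const_mul 2
  have := ge_of_tendsto hlim hev
  linarith

theorem Par.mem_of_HP (h : Par a e) {w : ℂ} (hw : ∀ ζ : ℂ, ‖ζ‖ = 1 → w ∈ HP a e ζ) :
    w ∈ C1 a e := by
  obtain ⟨z₀, hz₀, hmin⟩ := (isCompact_closedBall (0 : ℂ) 1).exists_isMinOn
    ⟨0, by simp⟩ (f := fun z => ‖chi a e z - w‖)
    ((h.continuousOn_chi.sub continuousOn_const).norm)
  have hz₁ : ‖z₀‖ ≤ 1 := by rwa [mem_closedBall_zero_iff] at hz₀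
  have hmin' : ∀ z ∈ closedBall (0 : ℂ) 1, ‖chi a e z₀ - w‖ ≤ ‖chi a e z - w‖ := fun z hz =>
    hmin hz
  set d := chi a e z₀ - w with hd
  have hcd := h.chid_ne hz₁
  suffices hd0 : d = 0 by
    exact ⟨z₀, hz₀, sub_eq_zero.1 hd0⟩
  rcases lt_or_eq_of_le hz₁ with hlt | heq
  · -- interior point
    have hv := h.variation (w := w) (k := -(d / chid a e z₀)) hz₁ hmin' (by
      have hc : ContinuousAt (fun s : ℝ => ‖z₀ + s * (-(d / chid a e z₀))‖) 0 := by fun_prop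
      have h1 : (fun s : ℝ => ‖z₀ + s * (-(d / chid a e z₀))‖) 0 < 1 := by simpa using hlt
      have h2 := hc.eventually (gt_mem_nhds h1)
      exact (h2.filter_mono nhdsWithin_le_nhds).mono fun s hs => hs.le)
    rw [← hd] at hv
    have e1 : (starRingEnd ℂ) d * (-(d / chid a e z₀) * chid a e z₀) =
        -((normSq d : ℝ) : ℂ) := by
      rw [neg_mul, div_mul_cancel₀ _ hcd, mul_neg, mul_comm, Complex.mul_conj]
    rw [e1, Complex.neg_re, Complex.ofReal_re] at hv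
    have h3 := Complex.normSq_nonneg d
    exact Complex.normSq_eq_zero.1 (by linarith)
  · -- boundary point
    have hz0 : z₀ ≠ 0 := by rintro rfl; simp at heq
    set c : ℂ := (starRingEnd ℂ) d * (z₀ * chid a e z₀) with hc
    have hvar : ∀ k : ℂ, k.re < 0 → 0 ≤ (c * k).re := by
      intro k hk
      have hv := h.variation (w := w) (k := z₀ * k) hz₁ hmin' (by
        have h1 : ∀ᶠ s : ℝ in 𝓝[>] 0, s * ‖k‖ ^ 2 + 2 * k.re < 0 := by
          have hcc : ContinuousAt (fun s : ℝ => s * ‖k‖ ^ 2 + 2 * k.re) 0 := by fun_prop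
          have h1 : (fun s : ℝ => s * ‖k‖ ^ 2 + 2 * k.re) 0 < 0 := by
            simp only [zero_mul, zero_add]; linarith
          exact (hcc.eventually (gt_mem_nhds h1)).filter_mono nhdsWithin_le_nhds
        filter_upwards [h1, self_mem_nhdsWithin] with s hs hs0
        have hs0 : 0 < s := hs0
        have h2 : z₀ + s * (z₀ * k) = z₀ * (1 + s * k) := by ring
        rw [h2, norm_mul, heq, one_mul]
        have h3 : ‖1 + (s : ℂ) * k‖ ^ 2 = 1 + s * (s * ‖k‖ ^ 2 + 2 * k.re) := by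
          rw [← Complex.normSq_eq_norm_sq, ← Complex.normSq_eq_norm_sq, Complex.normSq_add,
            Complex.normSq_mul, Complex.normSq_ofReal]
          simp
          ring
        have h4 : ‖1 + (s : ℂ) * k‖ ^ 2 ≤ 1 ^ 2 := by
          rw [h3]
          nlinarith
        exact abs_le_of_sq_le_sq' h4 (by norm_num) |>.2)
      rw [← hd] at hv
      have e1 : (starRingEnd ℂ) d * (z₀ * k * chid a e z₀) = c * k := by rw [hc]; ring
      rwa [e1] at hv
    have hre : c.re ≤ 0 := by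
      have := hvar (-1) (by simp)
      simpa using this
    have him : c.im = 0 := by
      have hlim : ∀ σ : ℝ, 0 ≤ σ * c.im := by
        intro σ
        have h1 : ∀ᶠ t : ℝ in 𝓝[>] 0, 0 ≤ -(t * c.re) + σ * c.im := by
          filter_upwards [self_mem_nhdsWithin] with t ht
          have ht : 0 < t := ht
          have := hvar (-(t : ℂ) - σ * I) (by simp [ht])
          simp only [Complex.mul_re, Complex.sub_re, Complex.neg_re, Complex.ofReal_re,
            Complex.ofReal_im, Complex.I_re, Complex.I_im, Complex.sub_im, Complex.neg_im,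
            Complex.mul_im] at this
          linarith
        have h2 : Tendsto (fun t : ℝ => -(t * c.re) + σ * c.im) (𝓝[>] 0)
            (𝓝 (-(0 * c.re) + σ * c.im)) := by
          refine Tendsto.mono_left ?_ nhdsWithin_le_nhds
          have : ContinuousAt (fun t : ℝ => -(t * c.re) + σ * c.im) 0 := by fun_prop
          exact this
        have := ge_of_tendsto h2 h1
        linarith
      have h1 := hlim 1
      have h2 := hlim (-1)
      linarith
    have hge : 0 ≤ c.re := by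
      have h1 := hw z₀ heq
      have h2 : ((starRingEnd ℂ) (z₀ * chid a e z₀) * (chi a e z₀ - w)).re = c.re := by
        rw [← hd, hc]
        simp only [Complex.mul_re, Complex.conj_re, Complex.conj_im]
        ring
      rw [← h2]
      exact h1
    have hc0 : c = 0 := Complex.ext (by simpa using le_antisymm hre hge) (by simpa using him)
    rw [hc] at hc0
    rcases mul_eq_zero.1 hc0 with h1 | h1
    · exact (map_eq_zero _).1 h1
    · exact absurd h1 (mul_ne_zero hz0 hcd)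

theorem Par.C1_eq (h : Par a e) : C1 a e = ⋂ ζ ∈ sphere (0 : ℂ) 1, HP a e ζ := by
  apply Subset.antisymm
  · refine subset_iInter₂ fun ζ hζ => h.subset_HP ?_
    rwa [mem_sphere_zero_iff_norm] at hζ
  · intro w hw
    refine h.mem_of_HP fun ζ hζ => ?_
    exact mem_iInter₂.1 hw ζ (by rwa [mem_sphere_zero_iff_norm])

theorem convex_HP (ζ : ℂ) : Convex ℝ (HP a e ζ) := by
  intro z hz w hw s t hs ht hst
  have hz' : 0 ≤ ((starRingEnd ℂ) (ζ * chid a e ζ) * (chi a e ζ - z)).re := hz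
  have hw' : 0 ≤ ((starRingEnd ℂ) (ζ * chid a e ζ) * (chi a e ζ - w)).re := hw
  show 0 ≤ ((starRingEnd ℂ) (ζ * chid a e ζ) * (chi a e ζ - (s • z + t • w))).re
  have hst' : ((s : ℂ)) + t = 1 := by exact_mod_cast hst
  have e1 : (starRingEnd ℂ) (ζ * chid a e ζ) * (chi a e ζ - (s • z + t • w)) =
      s * ((starRingEnd ℂ) (ζ * chid a e ζ) * (chi a e ζ - z)) +
      t * ((starRingEnd ℂ) (ζ * chid a e ζ) * (chi a e ζ - w)) := by
    rw [Complex.real_smul, Complex.real_smul]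
    linear_combination (-(starRingEnd ℂ) (ζ * chid a e ζ) * chi a e ζ) * hst'
  rw [e1, Complex.add_re, Complex.re_ofReal_mul, Complex.re_ofReal_mul]
  positivity

theorem Par.convex_C1 (h : Par a e) : Convex ℝ (C1 a e) := by
  rw [h.C1_eq]
  exact convex_iInter₂ fun ζ _ => convex_HP ζ

theorem Par.isClosed_C1 (h : Par a e) : IsClosed (C1 a e) := h.isCompact_C1.isClosed

/-- interior points come from the open disc -/
theorem Par.norm_lt_of_mem_interior (h : Par a e) {z : ℂ} (hz : ‖z‖ ≤ 1)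
    (hw : chi a e z ∈ interior (C1 a e)) : ‖z‖ < 1 := by
  refine lt_of_le_of_ne hz fun heq => ?_
  have hz0 : z ≠ 0 := by rintro rfl; simp at heq
  set n := z * chid a e z with hn
  have hn0 : n ≠ 0 := mul_ne_zero hz0 (h.chid_ne hz)
  rw [mem_interior_iff_mem_nhds] at hw
  have h1 : Tendsto (fun t : ℝ => chi a e z + t * n) (𝓝[>] 0) (𝓝 (chi a e z)) := by
    refine Tendsto.mono_left ?_ nhdsWithin_le_nhds
    have : ContinuousAt (fun t : ℝ => chi a e z + t * n) 0 := by fun_prop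
    have h2 := this.tendsto
    simpa using h2
  have h3 := h1.eventually hw
  obtain ⟨t, ht1, ht2⟩ := (h3.and self_mem_nhdsWithin).exists
  have ht2 : 0 < t := ht2
  have h4 : 0 ≤ ((starRingEnd ℂ) (z * chid a e z) * (chi a e z - (chi a e z + t * n))).re :=
    h.subset_HP heq ht1
  rw [← hn] at h4
  have e1 : (starRingEnd ℂ) n * (chi a e z - (chi a e z + t * n)) = -(((t * normSq n : ℝ)) : ℂ) := by
    push_cast
    rw [← Complex.mul_conj]
    ring
  rw [e1, Complex.neg_re, Complex.ofReal_re] at h4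
  have := mul_pos ht2 (Complex.normSq_pos.2 hn0)
  linarith

/-- `g` maps `C₁` to the closed disc and the interior of `C₁` to the open disc -/
theorem Par.norm_gi_le (h : Par a e) {w : ℂ} (hw : w ∈ C1 a e) : ‖gi a e w‖ ≤ 1 := by
  obtain ⟨z, hz, rfl⟩ := hw
  rw [mem_closedBall_zero_iff] at hz
  have h1 := h.bre hz
  rw [gi_chi h.ac h.e0.le (by linarith [h.a1])]
  exact hz

theorem Par.norm_gi_lt (h : Par a e) {w : ℂ} (hw : w ∈ interior (C1 a e)) :
    ‖gi a e w‖ < 1 := by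
  obtain ⟨z, hz, rfl⟩ := interior_subset hw
  rw [mem_closedBall_zero_iff] at hz
  have h1 := h.bre hz
  rw [gi_chi h.ac h.e0.le (by linarith [h.a1])]
  exact h.norm_lt_of_mem_interior hz hw

theorem Par.chi_mem_interior (h : Par a e) {z : ℂ} (hz : ‖z‖ < 1) :
    chi a e z ∈ interior (C1 a e) := by
  rw [mem_interior_iff_mem_nhds]
  have h1 : HasStrictDerivAt (chi a e) (chid a e z) z := by
    have hopen : IsOpen {z : ℂ | 1 - (a : ℂ) * z ≠ 0} :=
      isOpen_ne_fun (by fun_prop) continuous_const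
    have hd : DifferentiableOn ℂ (chi a e) {z : ℂ | 1 - (a : ℂ) * z ≠ 0} := fun w hw =>
      (hasDerivAt_chi h.ac hw).differentiableAt.differentiableWithinAt
    have hcd : ContDiffAt ℂ 1 (chi a e) z :=
      (hd.contDiffOn hopen).contDiffAt (hopen.mem_nhds (h.bne hz.le))
    have := hcd.hasStrictDerivAt one_ne_zero
    rwa [(hasDerivAt_chi h.ac (h.bne hz.le)).deriv] at this
  have h2 := h1.map_nhds_eq (h.chid_ne hz.le)
  rw [← h2, Filter.mem_map]
  have h3 : ball (0 : ℂ) 1 ∈ 𝓝 z := isOpen_ball.mem_nhds (by rwa [mem_ball_zero_iff])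
  filter_upwards [h3] with x hx
  exact ⟨x, ball_subset_closedBall hx, rfl⟩

/-- `Re (1 - a w) ≥ (1-a)/2` on `C₁` -/
theorem Par.re_one_sub_of_mem (h : Par a e) {w : ℂ} (hw : w ∈ C1 a e) :
    (1 - a) / 2 ≤ (1 - (a : ℂ) * w).re := by
  obtain ⟨z, hz, rfl⟩ := hw
  rw [mem_closedBall_zero_iff] at hz
  have h1 := h.bre hz
  have h2 := h.bnorm hz
  have h3 := h.bne hz
  have ha1 := h.a1
  have hp : 0 < 1 - a := by linarith
  have e1 : 1 - (a : ℂ) * chi a e z = (1 - a * z) - e / (1 - a * z) := by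
    unfold chi
    push_cast
    have := h.ac
    field_simp
    ring
  rw [e1, Complex.sub_re]
  have h4 : ((e : ℂ) / (1 - a * z)).re ≤ e / (1 - a) := by
    refine (Complex.re_le_norm _).trans ?_
    rw [norm_div, Complex.norm_real, Real.norm_of_nonneg h.e0.le]
    gcongr
    exact h.e0.le
  have h5 : e / (1 - a) ≤ (1 - a) / 2 := by
    rw [div_le_div_iff₀ hp (by norm_num)]
    have := h.ehalf
    nlinarith
  linarith

end Pool.Agent.Lib.MP_c3d375_an.Neg.H19
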