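import Pool.Agent.Lib.MP_c3d375_an.Neg.Iface
import Pool.Agent.Lib.MP_c3d375_an.Neg.H19.SetC1

/-!
# GC1: the set C1 is closed and convex, half planes, interior
-/

open Complex Metric Set Filter Topology ComplexConjugate Pool.Agent.Lib.MP_c3d375_an

namespace C3N.H19

open Pool.Agent.Lib.MP_c3d375_an.Neg.H19 (Par)

theorem par_of {a e : ℝ} (ha : 1 / 2 ≤ a) (ha1 : a < 1) (he : 0 < e)
    (he1 : e < (1 - a) ^ 3 / 2) : Par a e :=
  ⟨by linarith, ha1, he, by linarith⟩

theorem e0_pos {a : ℝ} (ha1 : a < 1) : 0 < (1 - a) ^ 3 / 2 := by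
  have : 0 < 1 - a := by linarith
  positivity

theorem gc1_st : GC1Statement := by
  intro a ha ha1
  refine ⟨(1 - a) ^ 3 / 2, e0_pos ha1, fun e he he1 => ?_⟩
  have h := par_of ha ha1 he he1
  refine ⟨h.isClosed_C1, h.convex_C1, fun w => ⟨?_, ?_⟩, ?_⟩
  · intro hw ζ hζ
    exact h.subset_HP hζ hw
  · intro hw
    exact h.mem_of_HP fun ζ hζ => hw ζ hζ
  · apply Subset.antisymm
    · intro w hw
      obtain ⟨z, hz, rfl⟩ := interior_subset hw
      rw [mem_closedBall_zero_iff] at hz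
      exact ⟨z, by rw [mem_ball_zero_iff]; exact h.norm_lt_of_mem_interior hz hw, rfl⟩
    · rintro w ⟨z, hz, rfl⟩
      rw [mem_ball_zero_iff] at hz
      exact h.chi_mem_interior hz

end C3N.H19
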