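import Mathlib

/-!
# The set C2 of section 0.2 (a right angle with sides of third order contact)
-/

set_option autoImplicit false

open Complex Metric Set Filter Topology

namespace Pool.Agent.Lib.MP_c3d375_an.Neg.H19

/-- the set `C₂` -/
def C2 : Set ℂ := {w | 0 ≤ w.re ∧ w.re ≤ 1 / 2 ∧ |w.im| ≤ w.re - w.re ^ 3}

theorem isClosed_C2 : IsClosed C2 := by
  have h1 : IsClosed {w : ℂ | 0 ≤ w.re} := isClosed_le continuous_const Complex.continuous_re
  have h2 : IsClosed {w : ℂ | w.re ≤ 1 / 2} := isClosed_le Complex.continuous_re continuous_const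
  have h3 : IsClosed {w : ℂ | |w.im| ≤ w.re - w.re ^ 3} :=
    isClosed_le Complex.continuous_im.abs (Complex.continuous_re.sub (Complex.continuous_re.pow 3))
  have h : C2 = {w : ℂ | 0 ≤ w.re} ∩ ({w : ℂ | w.re ≤ 1 / 2} ∩
      {w : ℂ | |w.im| ≤ w.re - w.re ^ 3}) := by
    ext w
    simp only [C2, mem_ofPred_eq, mem_inter_iff]
  rw [h]
  exact h1.inter (h2.inter h3)

theorem cubic_concave {x y a b : ℝ} (hx : 0 ≤ x) (hy : 0 ≤ y) (ha : 0 ≤ a) (hb : 0 ≤ b)
    (hab : a + b = 1) : a * (x - x ^ 3) + b * (y - y ^ 3) ≤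
      (a * x + b * y) - (a * x + b * y) ^ 3 := by
  have hbe : b = 1 - a := by linarith
  subst hbe
  have key : (a * (x ^ 3) + (1 - a) * y ^ 3) - (a * x + (1 - a) * y) ^ 3 =
      a * (1 - a) * (x - y) ^ 2 * ((1 + a) * x + (2 - a) * y) := by ring
  have h : 0 ≤ a * (1 - a) * (x - y) ^ 2 * ((1 + a) * x + (2 - a) * y) := by
    have : 0 ≤ (1 + a) * x + (2 - a) * y := by
      have h1 : 0 ≤ (1 + a) * x := by positivity
      have h2 : 0 ≤ (2 - a) * y := mul_nonneg (by linarith) hy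
      linarith
    positivity
  nlinarith [key, h]

theorem convex_C2 : Convex ℝ C2 := by
  intro z hz w hw a b ha hb hab
  obtain ⟨hz1, hz2, hz3⟩ := hz
  obtain ⟨hw1, hw2, hw3⟩ := hw
  have hre : (a • z + b • w).re = a * z.re + b * w.re := by simp
  have him : (a • z + b • w).im = a * z.im + b * w.im := by simp
  refine ⟨?_, ?_, ?_⟩
  · rw [hre]; positivity
  · rw [hre]
    calc a * z.re + b * w.re ≤ a * (1 / 2) + b * (1 / 2) := by gcongr
      _ = 1 / 2 := by rw [← add_mul, hab, one_mul]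
  · rw [hre, him]
    calc |a * z.im + b * w.im| ≤ |a * z.im| + |b * w.im| := abs_add_le _ _
      _ = a * |z.im| + b * |w.im| := by rw [abs_mul, abs_mul, abs_of_nonneg ha, abs_of_nonneg hb]
      _ ≤ a * (z.re - z.re ^ 3) + b * (w.re - w.re ^ 3) := by gcongr
      _ ≤ _ := cubic_concave hz1 hw1 ha hb hab

/-- `1/4` is an interior point -/
theorem quarter_mem : (1 / 4 : ℂ) ∈ interior C2 := by
  rw [mem_interior_iff_mem_nhds]
  have h : {w : ℂ | 0 < w.re} ∩ ({w : ℂ | w.re < 1 / 2} ∩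
      {w : ℂ | |w.im| < w.re - w.re ^ 3}) ⊆ C2 := by
    rintro w ⟨h1, h2, h3⟩
    exact ⟨le_of_lt h1, le_of_lt h2, le_of_lt h3⟩
  refine mem_of_superset (IsOpen.mem_nhds ?_ ?_) h
  · have h1 : IsOpen {w : ℂ | 0 < w.re} := isOpen_lt continuous_const Complex.continuous_re
    have h2 : IsOpen {w : ℂ | w.re < 1 / 2} := isOpen_lt Complex.continuous_re continuous_const
    have h3 : IsOpen {w : ℂ | |w.im| < w.re - w.re ^ 3} :=
      isOpen_lt Complex.continuous_im.abs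
        (Complex.continuous_re.sub (Complex.continuous_re.pow 3))
    exact h1.inter (h2.inter h3)
  · have h1 : (1 / 4 : ℂ).re = 1 / 4 := by
      rw [show (1 / 4 : ℂ) = ((1 / 4 : ℝ) : ℂ) by push_cast; ring, Complex.ofReal_re]
    have h2 : (1 / 4 : ℂ).im = 0 := by
      rw [show (1 / 4 : ℂ) = ((1 / 4 : ℝ) : ℂ) by push_cast; ring, Complex.ofReal_im]
    refine ⟨?_, ?_, ?_⟩
    · show 0 < (1 / 4 : ℂ).re
      rw [h1]; norm_num
    · show (1 / 4 : ℂ).re < 1 / 2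
      rw [h1]; norm_num
    · show |(1 / 4 : ℂ).im| < (1 / 4 : ℂ).re - (1 / 4 : ℂ).re ^ 3
      rw [h1, h2]; norm_num

/-- interior points satisfy the strict inequalities -/
theorem strict_of_mem_interior {w : ℂ} (hw : w ∈ interior C2) :
    0 < w.re ∧ w.re < 1 / 2 ∧ |w.im| < w.re - w.re ^ 3 := by
  rw [mem_interior_iff_mem_nhds, Metric.mem_nhds_iff] at hw
  obtain ⟨ε, hε, hsub⟩ := hw
  have hadd : ∀ t : ℂ, ‖t‖ < ε → w + t ∈ C2 := fun t ht =>
    hsub (by simpa [mem_ball, dist_eq_norm] using ht)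
  have hh : ‖((ε / 2 : ℝ) : ℂ)‖ < ε := by
    rw [Complex.norm_real, Real.norm_of_nonneg (by positivity)]; linarith
  have h1 : 0 < w.re := by
    have := (hadd (-((ε / 2 : ℝ) : ℂ)) (by rwa [norm_neg])).1
    simp only [Complex.add_re, Complex.neg_re, Complex.ofReal_re] at this
    linarith
  have h2 : w.re < 1 / 2 := by
    have := (hadd (((ε / 2 : ℝ) : ℂ)) hh).2.1
    simp only [Complex.add_re, Complex.ofReal_re] at this
    linarith
  refine ⟨h1, h2, ?_⟩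
  have hI : ‖((ε / 2 : ℝ) : ℂ) * I‖ < ε := by
    rw [norm_mul, Complex.norm_I, mul_one]; exact hh
  rcases le_total 0 w.im with hi | hi
  · have := (hadd (((ε / 2 : ℝ) : ℂ) * I) hI).2.2
    simp only [Complex.add_re, Complex.add_im, Complex.mul_re, Complex.mul_im, Complex.ofReal_re,
      Complex.ofReal_im, Complex.I_re, Complex.I_im] at this
    rw [abs_of_nonneg (by nlinarith)] at this
    rw [abs_of_nonneg hi]
    nlinarith
  · have := (hadd (-(((ε / 2 : ℝ) : ℂ) * I)) (by rwa [norm_neg])).2.2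
    simp only [Complex.add_re, Complex.add_im, Complex.neg_re, Complex.neg_im, Complex.mul_re,
      Complex.mul_im, Complex.ofReal_re, Complex.ofReal_im, Complex.I_re, Complex.I_im] at this
    rw [abs_of_nonpos (by nlinarith)] at this
    rw [abs_of_nonpos hi]
    nlinarith

theorem C2_abs_im {w : ℂ} (hw : w ∈ C2) : |w.im| ≤ w.re := by
  obtain ⟨h1, h2, h3⟩ := hw
  have : 0 ≤ w.re ^ 3 := by positivity
  linarith

theorem C2_norm_sq {w : ℂ} (hw : w ∈ C2) : ‖w‖ ^ 2 ≤ 1 / 2 := by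
  have h := C2_abs_im hw
  obtain ⟨h1, h2, h3⟩ := hw
  rw [← Complex.normSq_eq_norm_sq, Complex.normSq_apply]
  have h4 : w.im * w.im ≤ w.re * w.re := by
    rw [← abs_mul_abs_self w.im]
    exact mul_le_mul h h (abs_nonneg _) h1
  nlinarith

theorem C2_norm_le {w : ℂ} (hw : w ∈ C2) : ‖w‖ ≤ Real.sqrt 2 / 2 := by
  have h := C2_norm_sq hw
  have h2 : (Real.sqrt 2 / 2) ^ 2 = 1 / 2 := by
    rw [div_pow, Real.sq_sqrt (by norm_num)]; norm_num
  exact abs_le_of_sq_le_sq' (by rw [h2]; exact h) (by positivity) |>.2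

theorem C2_subset_ball : C2 ⊆ ball 0 1 := by
  intro w hw
  have h := C2_norm_sq hw
  rw [mem_ball_zero_iff]
  nlinarith [norm_nonneg w]

/-- `|w²-2| ≤ 2` in the form used -/
theorem C2_key {w : ℂ} (hw : w ∈ C2) : ‖1 - w ^ 2 / 2‖ ≤ 1 := by
  have hab := C2_abs_im hw
  obtain ⟨h1, h2, h3⟩ := hw
  have h4 : w.im ^ 2 ≤ (w.re - w.re ^ 3) ^ 2 := by
    rw [← sq_abs w.im]
    exact pow_le_pow_left₀ (abs_nonneg _) h3 2
  have h5 : (w.re ^ 2 + w.im ^ 2) ^ 2 / 4 ≤ w.re ^ 2 - w.im ^ 2 := by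
    have h6 : w.im ^ 2 ≤ w.re ^ 2 := by
      rw [← sq_abs w.im]
      exact pow_le_pow_left₀ (abs_nonneg _) hab 2
    have h7 : (w.re ^ 2 + w.im ^ 2) ^ 2 ≤ (2 * w.re ^ 2) ^ 2 :=
      pow_le_pow_left₀ (by positivity) (by linarith) 2
    have h8 : w.re ^ 4 ≤ w.re ^ 2 - (w.re - w.re ^ 3) ^ 2 := by
      have : w.re ^ 2 - (w.re - w.re ^ 3) ^ 2 - w.re ^ 4 = w.re ^ 4 * (1 - w.re ^ 2) := by ring
      have h9 : 0 ≤ w.re ^ 4 * (1 - w.re ^ 2) := by
        apply mul_nonneg (by positivity)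
        nlinarith
      linarith
    nlinarith
  have h10 : ‖1 - w ^ 2 / 2‖ ^ 2 ≤ 1 := by
    rw [← Complex.normSq_eq_norm_sq, Complex.normSq_apply]
    have hre : (1 - w ^ 2 / 2).re = 1 - (w.re ^ 2 - w.im ^ 2) / 2 := by
      simp [pow_two]
    have him : (1 - w ^ 2 / 2).im = -(w.re * w.im) := by
      simp [pow_two]
      ring
    rw [hre, him]
    nlinarith
  nlinarith [norm_nonneg (1 - w ^ 2 / 2)]

theorem C2_key_lt {w : ℂ} (hw : w ∈ interior C2) : ‖1 - w ^ 2 / 2‖ < 1 := by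
  obtain ⟨h1, h2, h3⟩ := strict_of_mem_interior hw
  have hab := C2_abs_im (interior_subset hw)
  have h4 : w.im ^ 2 ≤ (w.re - w.re ^ 3) ^ 2 := by
    rw [← sq_abs w.im]
    exact pow_le_pow_left₀ (abs_nonneg _) h3.le 2
  have h5 : (w.re ^ 2 + w.im ^ 2) ^ 2 / 4 < w.re ^ 2 - w.im ^ 2 := by
    have h6 : w.im ^ 2 ≤ w.re ^ 2 := by
      rw [← sq_abs w.im]
      exact pow_le_pow_left₀ (abs_nonneg _) hab 2
    have h7 : (w.re ^ 2 + w.im ^ 2) ^ 2 ≤ (2 * w.re ^ 2) ^ 2 :=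
      pow_le_pow_left₀ (by positivity) (by linarith) 2
    have h8 : w.re ^ 4 < w.re ^ 2 - (w.re - w.re ^ 3) ^ 2 := by
      have : w.re ^ 2 - (w.re - w.re ^ 3) ^ 2 - w.re ^ 4 = w.re ^ 4 * (1 - w.re ^ 2) := by ring
      have h9 : 0 < w.re ^ 4 * (1 - w.re ^ 2) := by
        apply mul_pos (by positivity)
        nlinarith
      linarith
    nlinarith
  have h10 : ‖1 - w ^ 2 / 2‖ ^ 2 < 1 := by
    rw [← Complex.normSq_eq_norm_sq, Complex.normSq_apply]
    have hre : (1 - w ^ 2 / 2).re = 1 - (w.re ^ 2 - w.im ^ 2) / 2 := by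
      simp [pow_two]
    have him : (1 - w ^ 2 / 2).im = -(w.re * w.im) := by
      simp [pow_two]
      ring
    rw [hre, him]
    nlinarith
  nlinarith [norm_nonneg (1 - w ^ 2 / 2)]

theorem re_pos_of_norm_lt {w : ℂ} (hw : ‖w‖ < 1) : 0 < (1 - w ^ 2 / 2).re := by
  have h1 : (w ^ 2).re ≤ 1 := by
    refine (Complex.re_le_norm _).trans ?_
    rw [norm_pow]
    exact pow_le_one₀ (norm_nonneg _) hw.le
  have h2 : (1 - w ^ 2 / 2).re = 1 - (w ^ 2).re / 2 := by simp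
  rw [h2]; linarith

/-- principal square root on the right half plane -/
noncomputable def sr (h : ℂ) : ℂ := exp (log h / 2)

theorem sr_sq {h : ℂ} (hh : h ≠ 0) : sr h ^ 2 = h := by
  rw [sr, ← exp_nat_mul]
  rw [show ((2 : ℕ) : ℂ) * (log h / 2) = log h by push_cast; ring, exp_log hh]

theorem sr_re_pos {h : ℂ} (hh : 0 < h.re) : 0 < (sr h).re := by
  rw [sr, exp_re]
  apply mul_pos (Real.exp_pos _)
  apply Real.cos_pos_of_mem_Ioo
  have h1 : (log h / 2).im = arg h / 2 := by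
    rw [show (log h / 2) = log h / ((2 : ℝ) : ℂ) by push_cast; rfl, Complex.div_ofReal_im, log_im]
  have h2 := Complex.abs_arg_lt_pi_div_two_iff.2 (Or.inl hh)
  rw [abs_lt] at h2
  rw [h1]
  constructor <;> linarith [h2.1, h2.2, Real.pi_pos]

theorem sr_sector {h : ℂ} (hh : 0 < h.re) : |(sr h).im| ≤ (sr h).re := by
  have h0 : h ≠ 0 := by rintro rfl; simp at hh
  have h1 := sr_re_pos hh
  have h2 := sr_sq h0
  have h3 : (sr h).re ^ 2 - (sr h).im ^ 2 = h.re := by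
    conv_rhs => rw [← h2]
    simp [pow_two]
  apply abs_le_of_sq_le_sq _ h1.le
  linarith

theorem differentiableAt_sr {h : ℂ} (hh : 0 < h.re) : DifferentiableAt ℂ sr h := by
  have : DifferentiableAt ℂ (fun h => exp (log h / 2)) h :=
    ((differentiableAt_log (Or.inl hh)).div_const 2).cexp
  exact this

/-- the function `q` of `w`: the inverse of `q/(1+q²/8)` -/
noncomputable def qC (w : ℂ) : ℂ := 2 * w / (1 + sr (1 - w ^ 2 / 2))

theorem one_add_sr_ne {h : ℂ} (hh : 0 < h.re) : 1 + sr h ≠ 0 := by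
  intro h0
  have h1 := sr_re_pos hh
  have := congrArg Complex.re h0
  simp only [Complex.add_re, Complex.one_re, Complex.zero_re] at this
  linarith

theorem differentiableOn_qC : DifferentiableOn ℂ qC (ball 0 1) := by
  intro w hw
  rw [mem_ball_zero_iff] at hw
  have h1 := re_pos_of_norm_lt hw
  have h2 : DifferentiableAt ℂ (fun w : ℂ => sr (1 - w ^ 2 / 2)) w :=
    DifferentiableAt.comp (g := sr) (f := fun w : ℂ => 1 - w ^ 2 / 2) w
      (differentiableAt_sr h1) (by fun_prop)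
  have h3 : DifferentiableAt ℂ qC w := by
    unfold qC
    exact (differentiableAt_id.const_mul 2).div (h2.const_add 1) (one_add_sr_ne h1)
  exact h3.differentiableWithinAt

theorem qC_sq {w : ℂ} (hw : ‖w‖ < 1) :
    qC w ^ 2 = 8 * ((1 - sr (1 - w ^ 2 / 2)) / (1 + sr (1 - w ^ 2 / 2))) := by
  have h1 := re_pos_of_norm_lt hw
  have h0 : (1 - w ^ 2 / 2) ≠ 0 := by
    intro h; rw [h] at h1; simp at h1
  have h2 := sr_sq h0
  have h3 := one_add_sr_ne h1
  set s := sr (1 - w ^ 2 / 2) with hs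
  have h4 : w ^ 2 = 2 * (1 - s ^ 2) := by rw [h2]; ring
  unfold qC
  rw [← hs, div_pow, mul_pow, h4]
  field_simp
  ring

theorem qC_inv {w : ℂ} (hw : ‖w‖ < 1) : w = qC w / (1 + qC w ^ 2 / 8) := by
  have h1 := re_pos_of_norm_lt hw
  have h3 := one_add_sr_ne h1
  have h2 := qC_sq hw
  set s := sr (1 - w ^ 2 / 2) with hs
  have h4 : 1 + qC w ^ 2 / 8 = 2 / (1 + s) := by
    rw [h2]
    field_simp
    ring
  rw [h4]
  unfold qC
  rw [← hs]
  field_simp

theorem re_div_formula {s : ℂ} (hs : 1 + s ≠ 0) :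
    ((1 - s) / (1 + s)).re = (1 - ‖s‖ ^ 2) / ‖1 + s‖ ^ 2 := by
  have h1 : ‖1 + s‖ ^ 2 ≠ 0 := pow_ne_zero 2 (norm_ne_zero_iff.2 hs)
  rw [Complex.div_re, ← Complex.normSq_eq_norm_sq, ← Complex.normSq_eq_norm_sq]
  rw [← Complex.normSq_eq_norm_sq] at h1
  rw [← add_div]
  congr 1
  simp only [Complex.sub_re, Complex.one_re, Complex.add_re, Complex.sub_im, Complex.one_im,
    Complex.add_im, Complex.normSq_apply]
  ring

theorem norm_sr_sq {h : ℂ} (hh : h ≠ 0) : ‖sr h‖ ^ 2 = ‖h‖ := by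
  rw [← norm_pow, sr_sq hh]

theorem qC_sq_re_nonneg {w : ℂ} (hw : w ∈ C2) : 0 ≤ (qC w ^ 2).re := by
  have hb := mem_ball_zero_iff.1 (C2_subset_ball hw)
  have h1 := re_pos_of_norm_lt hb
  have h0 : (1 - w ^ 2 / 2) ≠ 0 := by
    intro h; rw [h] at h1; simp at h1
  rw [qC_sq hb, show (8 : ℂ) = ((8 : ℝ) : ℂ) by push_cast; rfl, Complex.re_ofReal_mul,
    re_div_formula (one_add_sr_ne h1), norm_sr_sq h0]
  have := C2_key hw
  have h5 : 0 ≤ (1 - ‖1 - w ^ 2 / 2‖) / ‖1 + sr (1 - w ^ 2 / 2)‖ ^ 2 :=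
    div_nonneg (by linarith) (by positivity)
  linarith

theorem qC_sq_re_pos {w : ℂ} (hw : w ∈ interior C2) : 0 < (qC w ^ 2).re := by
  have hb := mem_ball_zero_iff.1 (C2_subset_ball (interior_subset hw))
  have h1 := re_pos_of_norm_lt hb
  have h0 : (1 - w ^ 2 / 2) ≠ 0 := by
    intro h; rw [h] at h1; simp at h1
  have h3 := one_add_sr_ne h1
  rw [qC_sq hb, show (8 : ℂ) = ((8 : ℝ) : ℂ) by push_cast; rfl, Complex.re_ofReal_mul,
    re_div_formula h3, norm_sr_sq h0]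
  have := C2_key_lt hw
  have h4 : 0 < ‖1 + sr (1 - w ^ 2 / 2)‖ := norm_pos_iff.2 h3
  have h5 : 0 < (1 - ‖1 - w ^ 2 / 2‖) / ‖1 + sr (1 - w ^ 2 / 2)‖ ^ 2 :=
    div_pos (by linarith) (by positivity)
  linarith

theorem qC_re {w : ℂ} (hw : w ∈ C2) :
    2 * w.re / ‖1 + sr (1 - w ^ 2 / 2)‖ ^ 2 ≤ (qC w).re := by
  have hb := mem_ball_zero_iff.1 (C2_subset_ball hw)
  have h1 := re_pos_of_norm_lt hb
  have h3 := one_add_sr_ne h1
  have h4 := sr_sector h1
  have h5 := sr_re_pos h1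
  have h6 := C2_abs_im hw
  have h7 : 0 < ‖1 + sr (1 - w ^ 2 / 2)‖ := norm_pos_iff.2 h3
  set s := sr (1 - w ^ 2 / 2) with hs
  have h8 : (qC w).re = (2 * w.re + 2 * (w.re * s.re + w.im * s.im)) / ‖1 + s‖ ^ 2 := by
    unfold qC
    rw [← hs, Complex.div_re, ← Complex.normSq_eq_norm_sq, ← add_div]
    congr 1
    simp only [Complex.mul_re, Complex.mul_im, Complex.add_re, Complex.one_re, Complex.add_im,
      Complex.one_im, Complex.re_ofNat, Complex.im_ofNat]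
    ring
  rw [h8]
  have h9 : 0 ≤ w.re * s.re + w.im * s.im := by
    have h10 : |w.im * s.im| ≤ w.re * s.re := by
      rw [abs_mul]
      exact mul_le_mul h6 h4 (abs_nonneg _) hw.1
    linarith [(abs_le.1 h10).1]
  gcongr
  linarith

theorem qC_re_nonneg {w : ℂ} (hw : w ∈ C2) : 0 ≤ (qC w).re := by
  refine le_trans ?_ (qC_re hw)
  have := hw.1
  positivity

theorem qC_re_pos {w : ℂ} (hw : w ∈ C2) (h0 : 0 < w.re) : 0 < (qC w).re := by
  refine lt_of_lt_of_le ?_ (qC_re hw)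
  have hb := mem_ball_zero_iff.1 (C2_subset_ball hw)
  have h7 : 0 < ‖1 + sr (1 - w ^ 2 / 2)‖ := norm_pos_iff.2 (one_add_sr_ne (re_pos_of_norm_lt hb))
  positivity

theorem norm_qC_le {w : ℂ} (hw : w ∈ C2) : ‖qC w‖ ≤ Real.sqrt 2 := by
  have hb := mem_ball_zero_iff.1 (C2_subset_ball hw)
  have h1 := re_pos_of_norm_lt hb
  have h5 := sr_re_pos h1
  have h7 : 1 ≤ ‖1 + sr (1 - w ^ 2 / 2)‖ := by
    refine le_trans ?_ (Complex.re_le_norm _)
    simp only [Complex.add_re, Complex.one_re]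
    linarith
  unfold qC
  rw [norm_div, norm_mul, Complex.norm_ofNat]
  have h8 := C2_norm_le hw
  have h9 : 2 * ‖w‖ ≤ Real.sqrt 2 := by linarith
  rw [div_le_iff₀ (by linarith)]
  have := Real.sqrt_nonneg 2
  nlinarith

/-- (b): the map `q/(1+2q²)` sends the quarter plane into `C₂` -/
theorem G2_mem {q : ℂ} (h1 : 0 ≤ q.re) (h2 : 0 ≤ (q ^ 2).re) : q / (1 + 2 * q ^ 2) ∈ C2 := by
  set x := q.re with hx
  set y := q.im with hy
  have hd : 0 ≤ x ^ 2 - y ^ 2 := by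
    have : (q ^ 2).re = x ^ 2 - y ^ 2 := by simp [pow_two, hx, hy]
    rwa [this] at h2
  set u : ℂ := 1 + 2 * q ^ 2 with hu
  have hure : u.re = 1 + 2 * (x ^ 2 - y ^ 2) := by
    rw [hu]
    simp [pow_two, hx, hy]
  have huim : u.im = 4 * x * y := by
    rw [hu]
    simp [pow_two, hx, hy]
    ring
  set N : ℝ := Complex.normSq u with hN
  have hNeq : N = 1 + 4 * (x ^ 2 - y ^ 2) + 4 * (x ^ 2 + y ^ 2) ^ 2 := by
    rw [hN, Complex.normSq_apply, hure, huim]
    ring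
  have hNpos : 0 < N := by rw [hNeq]; positivity
  have hX : (q / u).re = x * (1 + 2 * (x ^ 2 + y ^ 2)) / N := by
    rw [Complex.div_re, ← add_div]
    congr 1
    rw [hure, huim, ← hx, ← hy]
    ring
  have hY : (q / u).im = y * (1 - 2 * (x ^ 2 + y ^ 2)) / N := by
    rw [Complex.div_im, ← sub_div]
    congr 1
    rw [hure, huim, ← hx, ← hy]
    ring
  set X := (q / u).re with hXd
  set Y := (q / u).im with hYd
  have hX0 : 0 ≤ X := by rw [hX]; positivity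
  have hXhalf : X ≤ 1 / 2 := by
    rw [hX, div_le_div_iff₀ hNpos (by norm_num), hNeq]
    nlinarith [sq_nonneg (2 * x - 1), sq_nonneg (4 * y ^ 2 - 1), sq_nonneg y, sq_nonneg x,
      mul_nonneg hd (sq_nonneg y), mul_nonneg hd (sq_nonneg (2 * x - 1)),
      mul_nonneg (sq_nonneg y) (sq_nonneg (2 * x - 1)), mul_nonneg (sq_nonneg x) (sq_nonneg (2 * x - 1))]
  have hsum : X ^ 2 + Y ^ 2 = (x ^ 2 + y ^ 2) / N := by
    rw [hX, hY, div_pow, div_pow, ← add_div, div_eq_div_iff (by positivity) (by positivity), hNeq]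
    ring
  have hdiff : 4 * ((x ^ 2 + y ^ 2) / N) ^ 2 ≤ X ^ 2 - Y ^ 2 := by
    rw [hX, hY, div_pow, div_pow, div_pow, ← sub_div, ← mul_div_assoc]
    gcongr
    nlinarith [mul_nonneg hd (sq_nonneg (x ^ 2 + y ^ 2))]
  have hX4 : 4 * X ^ 4 ≤ X ^ 2 - Y ^ 2 := by
    refine le_trans ?_ hdiff
    rw [← hsum]
    have : (X ^ 2) ^ 2 ≤ (X ^ 2 + Y ^ 2) ^ 2 := by
      apply pow_le_pow_left₀ (by positivity)
      nlinarith [sq_nonneg Y]
    nlinarith
  refine ⟨hX0, hXhalf, ?_⟩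
  have h5 : 0 ≤ X - X ^ 3 := by
    have : X - X ^ 3 = X * (1 - X ^ 2) := by ring
    rw [this]
    apply mul_nonneg hX0
    nlinarith
  apply abs_le_of_sq_le_sq _ h5
  have : 0 ≤ X ^ 4 := by positivity
  nlinarith [sq_nonneg (X ^ 3)]

end Pool.Agent.Lib.MP_c3d375_an.Neg.H19
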