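import Pool.Agent.Lib.MP_c3d375_an.Neg.Iface
import Pool.Agent.Lib.MP_c3d375_an.Neg.H19.SetC2

/-!
# GC2: the set C2
-/

open Complex Metric Set Filter Topology ComplexConjugate Pool.Agent.Lib.MP_c3d375_an

namespace C3N.H19

open Pool.Agent.Lib.MP_c3d375_an.Neg.H19 (isClosed_C2 convex_C2 quarter_mem C2_norm_le
  C2_subset_ball differentiableOn_qC qC_re_pos qC_sq_re_pos norm_qC_le qC_inv G2_mem
  strict_of_mem_interior qC)

theorem qf_eq (w : ℂ) : qf w = qC w := rfl

theorem gc2_st : GC2Statement := by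
  refine ⟨isClosed_C2, convex_C2, ?_, quarter_mem, ?_, ?_, fun q h1 h2 => G2_mem h1 h2⟩
  · refine isCompact_of_isClosed_isBounded isClosed_C2 ?_
    exact isBounded_ball.subset C2_subset_ball
  · exact differentiableOn_qC.mono (interior_subset.trans C2_subset_ball)
  · intro w hw
    have hw' : w ∈ Pool.Agent.Lib.MP_c3d375_an.Neg.H19.C2 := interior_subset hw
    have h0 := (strict_of_mem_interior hw).1
    refine ⟨qC_re_pos hw' h0, qC_sq_re_pos hw, ?_, ?_⟩
    · have h1 := norm_qC_le hw'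
      calc ‖qf w‖ ^ 2 ≤ (Real.sqrt 2) ^ 2 := pow_le_pow_left₀ (norm_nonneg _) h1 2
        _ = 2 := Real.sq_sqrt (by norm_num)
    · exact qC_inv (mem_ball_zero_iff.1 (C2_subset_ball hw'))

end C3N.H19
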