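import Pool.Agent.Lib.MP_c3d375_an.Neg.H19.GC1

/-!
# GIN: the inverse of the map chi
-/

open Complex Metric Set Filter Topology ComplexConjugate Pool.Agent.Lib.MP_c3d375_an

namespace C3N.H19

open Pool.Agent.Lib.MP_c3d375_an.Neg.H19 (Par gi gi_chi chi_gi differentiableOn_gi re_one_sub_gi)

theorem re_pos_iff {a : ℝ} (ha : 0 < a) (w : ℂ) : w.re < 1 / a ↔ 0 < (1 - (a : ℂ) * w).re := by
  rw [lt_div_iff₀ ha]
  simp only [Complex.sub_re, Complex.one_re, Complex.re_ofReal_mul]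
  constructor <;> intro h <;> linarith

theorem gin_st : GINStatement := by
  intro a ha ha1
  refine ⟨(1 - a) ^ 3 / 2, e0_pos ha1, fun e he he1 => ?_⟩
  have h := par_of ha ha1 he he1
  have ha0 : 0 < a := by linarith
  refine ⟨gi a e, ?_, ?_, ?_, ?_⟩
  · refine (differentiableOn_gi he.le).mono fun w hw => ?_
    exact (re_pos_iff ha0 w).1 hw
  · intro w hw
    have hw' := (re_pos_iff ha0 w).1 hw
    exact ⟨(re_pos_iff ha0 _).2 (re_one_sub_gi h.ac he.le hw'), chi_gi h.ac he.le hw'⟩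
  · intro z hz _
    exact gi_chi h.ac he.le ((re_pos_iff ha0 z).1 hz)
  · intro z hz
    have hmem : chi a e z ∈ Pool.Agent.Lib.MP_c3d375_an.Neg.H19.C1 a e :=
      ⟨z, by rw [mem_closedBall_zero_iff]; exact hz, rfl⟩
    have := h.re_one_sub_of_mem hmem
    exact (re_pos_iff ha0 _).2 (by linarith)

end C3N.H19
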