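import Pool.Agent.Lib.MP_c3d375_an.Neg.Iface

/-!
# RED: reduction of the upper bound to systems
-/

open Complex Metric Set Filter Topology ComplexConjugate Pool.Agent.Lib.MP_c3d375_an

namespace C3N.H19

theorem diff_chi {a e : ℝ} {z : ℂ} (h : 1 - (a : ℂ) * z ≠ 0) : DifferentiableAt ℂ (chi a e) z := by
  unfold chi
  exact differentiableAt_id.add ((differentiableAt_const _).div (by fun_prop) h)

theorem one_sub_ne {a : ℝ} (ha : 0 < a) {z : ℂ} {r : ℝ} (hr : r ≤ (1 + a) / (2 * a))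
    (ha1 : a < 1) (hz : ‖z‖ < r) : 1 - (a : ℂ) * z ≠ 0 := by
  intro h0
  have h1 : (a : ℂ) * z = 1 := by linear_combination -h0
  have h2 : a * ‖z‖ = 1 := by
    have := congrArg norm h1
    rwa [norm_mul, Complex.norm_real, Real.norm_of_nonneg ha.le, norm_one] at this
  have h3 : a * ‖z‖ < a * ((1 + a) / (2 * a)) := by
    gcongr
    linarith
  have h4 : a * ((1 + a) / (2 * a)) = (1 + a) / 2 := by field_simp
  rw [h2, h4] at h3
  linarith

/-- the reduction for one point, from the values of the used statements at the parameters -/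
theorem red_aux {a e : ℝ} (ha : 1 / 2 ≤ a) (ha1 : a < 1) (hcl : IsClosed (C1 a e))
    (hconv : Convex ℝ (C1 a e)) (hint : interior (C1 a e) = chi a e '' ball 0 1)
    (hC2conv : Convex ℝ C2) (hq : (1 / 4 : ℂ) ∈ interior C2)
    (hqd : DifferentiableOn ℂ qf (interior C2))
    (hqf : ∀ w ∈ interior C2, 0 < (qf w).re ∧ 0 < ((qf w) ^ 2).re ∧ ‖qf w‖ ^ 2 ≤ 2 ∧
      w = qf w / (1 + (qf w) ^ 2 / 8)) {w : ℂ} (hw : w ∈ W (C1 a e) C2) {ε : ℝ} (hε : 0 < ε) :
    ∃ (H : Type) (_ : NormedAddCommGroup H) (_ : InnerProductSpace ℂ H) (_ : CompleteSpace H)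
      (T : H →L[ℂ] H) (f : ℂ → ℂ) (B : H →L[ℂ] H) (V U : Set ℂ) (x : H) (r : ℝ) (q : Hol r),
      (∀ x : H, ‖x‖ = 1 → inner ℂ x (T x) ∈ C1 a e) ∧ spectrum ℂ T ⊆ interior (C1 a e) ∧
      IsOpen V ∧ C1 a e ⊆ V ∧ DifferentiableOn ℂ f V ∧ IsOpen U ∧ spectrum ℂ T ⊆ U ∧
      Calc T U f B ∧ ‖x‖ = 1 ∧ ‖inner ℂ x (B x) - w‖ ≤ ε ∧ 1 < r ∧ r ≤ (1 + a) / (2 * a) ∧
      QH q ∧ ∀ z ∈ closedBall (0 : ℂ) 1, fn (ff q) z = f (chi a e z) := by
  have ha0 : 0 < a := by linarith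
  have hc₀ : chi a e 0 ∈ interior (C1 a e) := by
    rw [hint]
    exact ⟨0, by simp, rfl⟩
  obtain ⟨H, i1, i2, i3, T, f, B, V, x, U, hT, hσ, hV, hsub, hf, hfC, hU, hTU, hB, hx, hBw⟩ :=
    approx1 hcl hconv hc₀ hw (half_pos hε)
  set β : ℂ := inner ℂ x (B x) with hβ
  obtain ⟨s, hs0, hs1⟩ := exists_between
    (show (0 : ℝ) < min 1 (ε / 2 / (‖β‖ + 1)) by positivity)
  have hs1' : s < 1 := hs1.trans_le (min_le_left _ _)
  have hs2 : s * (‖β‖ + 1) ≤ ε / 2 := by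
    rw [← le_div_iff₀ (by positivity)]
    exact hs1.le.trans (min_le_right _ _)
  set g : ℂ → ℂ := fun z => ((1 - s : ℝ) : ℂ) * f z + (s : ℂ) * (1 / 4) with hg
  have hgd : DifferentiableOn ℂ g V := ((differentiableOn_const _).mul hf).add
    (differentiableOn_const _)
  have hgC : ∀ z ∈ C1 a e, g z ∈ interior C2 := by
    intro z hz
    have h1 := hC2conv.combo_self_interior_mem_interior (hfC ⟨z, hz, rfl⟩) hq
      (sub_nonneg.2 hs1'.le) hs0 (by ring)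
    simpa only [Complex.real_smul] using h1
  have hgcont : ContinuousOn g V := hgd.continuousOn
  set V' : Set ℂ := V ∩ g ⁻¹' interior C2 with hV'
  have hV'o : IsOpen V' := hgcont.isOpen_inter_preimage hV isOpen_interior
  -- the disc
  set D : Set ℂ := {z : ℂ | 1 - (a : ℂ) * z ≠ 0} ∩ chi a e ⁻¹' V' with hD
  have hcontchi : ContinuousOn (chi a e) {z : ℂ | 1 - (a : ℂ) * z ≠ 0} := fun z hz =>
    (diff_chi hz).continuousAt.continuousWithinAt
  have hopen : IsOpen {z : ℂ | 1 - (a : ℂ) * z ≠ 0} :=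
    isOpen_ne_fun (by fun_prop) continuous_const
  have hDo : IsOpen D := hcontchi.isOpen_inter_preimage hopen hV'o
  have hDsub : closedBall (0 : ℂ) 1 ⊆ D := by
    intro z hz
    refine ⟨?_, ?_, ?_⟩
    · rw [mem_closedBall_zero_iff] at hz
      refine one_sub_ne (r := (1 + a) / (2 * a)) ha0 le_rfl ha1 (hz.trans_lt ?_)
      rw [lt_div_iff₀ (by positivity)]
      linarith
    · exact hsub ⟨z, hz, rfl⟩
    · exact hgC _ ⟨z, hz, rfl⟩
  obtain ⟨R, hR1, hRD⟩ := exists_ball_subset hDo hDsub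
  set r : ℝ := min R ((1 + a) / (2 * a)) with hr
  have hr1 : 1 < r := by
    refine lt_min hR1 ?_
    rw [lt_div_iff₀ (by positivity)]
    linarith
  have hrR : ball (0 : ℂ) r ⊆ D := (ball_subset_ball (min_le_left _ _)).trans hRD
  have hcb : closedBall (0 : ℂ) 1 ⊆ ball 0 r := closedBall_subset_ball hr1
  have hchid : DifferentiableOn ℂ (chi a e) (ball 0 r) := fun z hz =>
    (diff_chi (hrR hz).1).differentiableWithinAt
  have hgchi : DifferentiableOn ℂ (fun z => g (chi a e z)) (ball 0 r) :=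
    hgd.comp hchid fun z hz => (hrR hz).2.1
  have hmem : ∀ z ∈ ball (0 : ℂ) r, g (chi a e z) ∈ interior C2 := fun z hz => (hrR hz).2.2
  have hqdiff : DifferentiableOn ℂ (fun z => qf (g (chi a e z))) (ball 0 r) :=
    hqd.comp hgchi hmem
  set q : Hol r := hol r (fun z => qf (g (chi a e z))) with hqdef
  have hfnq : ∀ z ∈ ball (0 : ℂ) r, fn q z = qf (g (chi a e z)) := fun z hz =>
    fn_hol hqdiff hz
  have hffd : DifferentiableOn ℂ (fun z => fn q z / (1 + (fn q z) ^ 2 / 8)) (ball 0 r) := by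
    refine hgchi.congr fun z hz => ?_
    rw [hfnq z hz]
    exact (hqf _ (hmem z hz)).2.2.2.symm
  have hQH : QH q := by
    refine ⟨fun z hz => ?_, fun z hz => ?_, fun z hz => ?_⟩
    · rw [hfnq z hz]
      exact (hqf _ (hmem z hz)).1
    · rw [hfnq z hz]
      exact (hqf _ (hmem z hz)).2.1
    · rw [hfnq z (hcb hz)]
      exact (hqf _ (hmem z (hcb hz))).2.2.1
  refine ⟨H, i1, i2, i3, T, g, ((1 - s : ℝ) : ℂ) • B + ((s : ℂ) * (1 / 4)) • (1 : H →L[ℂ] H),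
    V, U, x, r, q, hT, hσ, hV, hsub, hgd, hU, hTU, ?_, hx, ?_, hr1, min_le_right _ _, hQH, ?_⟩
  · exact (hB.smul _).add (Calc.const _)
  · have h1 : inner ℂ x ((((1 - s : ℝ) : ℂ) • B + ((s : ℂ) * (1 / 4)) • (1 : H →L[ℂ] H)) x) =
        β + (s : ℂ) * (1 / 4 - β) := by
      rw [add_apply, inner_add_right, smul_apply, smul_apply, inner_smul_right, inner_smul_right,
        inner_one_apply, hx, ← hβ]
      push_cast
      ring
    rw [h1]
    have h2 : β + (s : ℂ) * (1 / 4 - β) - w = (β - w) + (s : ℂ) * (1 / 4 - β) := by ring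
    rw [h2]
    have h3 : ‖(1 / 4 : ℂ) - β‖ ≤ ‖β‖ + 1 := by
      refine (norm_sub_le _ _).trans ?_
      have : ‖(1 / 4 : ℂ)‖ = 1 / 4 := by
        rw [show (1 / 4 : ℂ) = ((1 / 4 : ℝ) : ℂ) by push_cast; ring, Complex.norm_real,
          Real.norm_of_nonneg (by norm_num)]
      rw [this]
      linarith
    calc ‖(β - w) + (s : ℂ) * (1 / 4 - β)‖ ≤ ‖β - w‖ + ‖(s : ℂ) * (1 / 4 - β)‖ := norm_add_le _ _
      _ ≤ ε / 2 + s * (‖β‖ + 1) := by
          rw [norm_mul, Complex.norm_real, Real.norm_of_nonneg hs0.le]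
          gcongr
      _ ≤ ε := by linarith
  · intro z hz
    rw [ff, fn_hol hffd (hcb hz), hfnq z (hcb hz)]
    exact (hqf _ (hmem z (hcb hz))).2.2.2.symm

theorem red_st (h1 : GC1Statement) (h2 : GC2Statement) (h3 : SYAStatement) (h4 : CALStatement)
    (h5 : POSStatement) (h6 : KRNStatement) : REDStatement := by
  intro a ha ha1
  obtain ⟨e1, he1, H1⟩ := h1 a ha ha1
  obtain ⟨-, hC2conv, -, hq, hqd, hqf, -⟩ := h2
  obtain ⟨e3, he3, H3⟩ := h3 a ha ha1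
  obtain ⟨e4, he4, H4⟩ := h4 a ha ha1
  obtain ⟨e5, he5, H5⟩ := h5 a ha ha1
  obtain ⟨e6, he6, H6⟩ := h6 a ha ha1
  refine ⟨min e1 (min e3 (min e4 (min e5 e6))), by positivity, fun e he hee w hw ε hε => ?_⟩
  simp only [lt_min_iff] at hee
  obtain ⟨b1, b3, b4, b5, b6⟩ := hee
  obtain ⟨hcl, hconv, -, hint⟩ := H1 e he b1
  obtain ⟨H, i1, i2, i3, T, f, B, V, U, x, r, q, hT, hσ, hV, hsub, hf, hU, hTU, hB, hx, hBw, hr1,
    hr2, hQ, hfn⟩ := red_aux ha ha1 hcl hconv hint hC2conv hq hqd hqf hw hε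
  obtain ⟨S0, hS0⟩ := H3 e he b3 H T hT hσ r hr1 hr2
  have hcal := H4 e he b4 H T hσ r hr1 hr2 S0.Φ S0.bdd hS0 f V U B hV hsub hf hU hTU hB (ff q) hfn
  refine ⟨H, i1, i2, i3, r, hr1, hr2, ⟨S0.Φ, S0.bdd, S0.nB,
    fun h hh n => H5 e he b5 H r hr1 hr2 S0 h hh n,
    fun h hh => H6 e he b6 H r hr1 hr2 S0 h hh⟩, q, x, hQ, hx, ?_⟩
  show ‖inner ℂ x (S0.Φ (ff q) x) - w‖ ≤ ε
  rw [hcal]
  exact hBw

end C3N.H19
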